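import Pool.Agent.H.MP_b8145f.D

set_option autoImplicit false
open Set Filter Topology MeasureTheory

namespace Pool.Agent.Results.MP_b8145f_gt.Main

theorem result (K : Set ((ℕ → ℕ) → ℝ)) (hK : IsCompact K)
    (hB : ∀ f ∈ K, ∃ g : ℕ → (ℕ → ℕ) → ℝ, (∀ n, Continuous (g n)) ∧
      ∀ x, Tendsto (fun n => g n x) atTop (𝓝 (f x)))
    [MeasurableSpace K] [BorelSpace K] (μ : Measure K) [IsProbabilityMeasure μ] [μ.Regular] :
    ∃ A : ℕ → Set (Set K),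
      (∀ i, (A i).Finite ∧ (A i).PairwiseDisjoint id ∧ ∀ s ∈ A i, IsCompact s) ∧
      ∀ U : Set (Set K), (∀ u ∈ U, IsOpen u) → ⋃₀ U = univ → ∀ ε : ℝ, 0 < ε →
        ∃ i, (∀ s ∈ A i, ∃ u ∈ U, s ⊆ u) ∧ μ (univ \ ⋃₀ A i) < ENNReal.ofReal ε := by
  letI := TopologicalSpace.upgradeIsCompletelyMetrizable (ℕ → ℕ)
  haveI := isCompact_iff_compactSpace.1 hK
  obtain ⟨A, a1, a2⟩ := H.MP_b8145f.fin (μ := μ) (e := (Subtype.val : K → (ℕ → ℕ) → ℝ))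
    IsInducing.subtypeVal fun w => hB w w.2
  exact ⟨A, a1, fun U u1 u2 ε h => by
    simpa only [compl_eq_univ_sdiff] using a2 U u1 u2 _ (ENNReal.ofReal_pos.2 h)⟩

end Pool.Agent.Results.MP_b8145f_gt.Main
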